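import Pool.Agent.Helper79.GU.Defs

/-!
# Project GU (MP_c2d095_lc): statements
-/

set_option autoImplicit false

namespace Pool.Agent.Helper79.GU

open Pool.Agent.Helper19.SK Pool.Agent.Helper73.DC Pool.Agent.Helper79.GS Pool.Agent.Helper79.GT Finset
open scoped Classical

/-- SWN (about 80 lines)
(A safe player wins by passing.)
Proof.  `Safe A c b` gives the score of `b` (`ReflTransGen.refl`): `0 < A.sc b d ↔ c = true`, and `Safe A c b'` for every placement `b → b'` of the opponent `!c` (`ReflTransGen.head`).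
Case `c = false`: `BWg A sk H ps x b d → Safe A false b → False` by induction on `BWg`: `stop`: the score is not positive.  `pass`: the same board, induction.  `move`: a placement of Black, the opponent of White, so `b'` is safe: induction.
`white`: if `ps = true` the first premise gives a positive score; if `ps = false` the induction hypothesis of the second premise (same board).
Case `c = true`: strong induction on `(Hᶜ).ncard` (`H : Set (Bool × P)`, finite type) for the claim: for all `b` with `Safe A true b` and all `ps d`: `BWg A sk H ps false b d`.  Constructor `white`: `ps = true`: the score is positive; `ps = false`: `BWg.stop`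
(two passes, positive score); a placement `b → b'` of White with `okk sk false b' H`: `b'` is safe for Black; then `(true, b') ∉ H` (both kinds of superko: unfold `okk`, `split_ifs`), the history `H' = insert (!false, b') H` has a smaller complement, and Black, to move
(`ps = false`), passes: `BWg.pass` leads to the history `insert (false, b') H'`, whose complement is at most that of `H'`, so smaller than that of `H` (`Set.ncard_lt_ncard`): induction.  Finally for Black to move: `ps = true`: `stop`; `ps = false`: `pass` and the claim.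
Hypotheses: none. -/
def StSWN : Prop := ∀ (P : Type) [Finite P] (A : Gm P) (sk c : Bool) (H : Set (Bool × P)) (ps x : Bool) (b : P) (d : ℤ),
  Safe A c b → (BWg A sk H ps x b d ↔ c = true)

/-- SND (about 90 lines)
(The decisive placements are sound if no board of the history is safe.)
Proof.  Call a board calm if it is safe for neither player.
(1) If `A.mv c b b'` and `A.mv (!c) b' b` and `b` is calm then `b'` is calm: for the player `c`: `b' → b` is a placement of the opponent `!c`, so `Safe A c b'` implies `Safe A c b` (`ReflTransGen.head`); for the player `!c`: `b' → b` is a placement of `!c` which can be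
taken back (`A.mv (!c) b' b` and `A.mv (!!c) b b'`), a step of `Att A (!c)`, so `Safe A (!c) b'` implies `Safe A (!c) b`.
(2) `Pl A sk (Dec A) H₀ c₀ b₀ d₀ H ps c b d → (∀ x ∈ H, x.2` is calm`) ∧ b` is calm: induction on `Pl`.  `start`: the hypothesis.  `pass`: the same board.  `move` with `und A (Dec A) c b b'`: if the placement can be taken back use (1); otherwise `¬ Dec A true c b b'` and
`¬ Dec A false c b b'` say that `b'` is calm.
(3) `Sound`: let `b'` be a placement of `c` which cannot be taken back.  `Dec A true c b b'`: `Safe A c b'`, so `b'` is no board of `H` (all calm): `okk` holds (both kinds of superko); hSWN gives the value (`↔ c = true`).  `Dec A false c b b'` and `okk`: case `Safe A (!c) b'`: hSWN gives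
`↔ (!c) = true`, i.e. `c = false`.  Case `¬ Safe A (!c) b'`, `A.mv (!c) b' b''`, `Safe A (!c) b''`: `b''` is no board of `insert (!c, b') H` (the boards of `H` are calm; `b'' ≠ b'` since one is safe for `!c` and the other is not), so
`okk sk (!c) b'' (insert (!c, b') H)`; hSWN for `b''` gives `BWg .. b'' .. ↔ (!c) = true`.  If `c = false`: Black is to move: constructor `move`; the claim `BWg ↔ c = false` is true on both sides.  If `c = true`: White is to move; from `BWg` (inversion: constructor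
`white`, last premise with `b''`) we would get `BWg` for `b''`, i.e. `(!true) = true`, false; so both sides are false.
Hypotheses: hSWN. -/
def StSND : Prop := ∀ (P : Type) [Finite P] (A : Gm P) (sk : Bool) (H₀ : Set (Bool × P)) (c₀ : Bool) (b₀ : P) (d₀ : ℤ),
  (∀ c, ¬ Safe A c b₀) → (∀ x ∈ H₀, ∀ c, ¬ Safe A c x.2) → Sound A sk (Dec A) H₀ c₀ b₀ d₀

/-- RPT (about 130 lines)
(Paths as numbers.)  `N ≥ 3^(n²)`, so `pw N 3 (n²) = 3^(n²)` (`pw cap b e = min (b^e) (cap + 1)`).
Proof.  `stN N n (bn c) (codeB P) (codeB Q) ↔` step of `Att (goG (grid n) false) c`: hPLY (of GS; `1 - bn c = bn (!c)`; `(goG (grid n) false).mv` is by definition `∃ e, P e = none ∧ Q = play .. ∧ Q ≠ P`).  By induction on `k`: `pthN N n (bn c) k (codeB P) (codeB Q)` iff there is a path with at most `2^k`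
steps from `P` to `Q`; here the midpoint `w < 3^(n²)` is the code of a board (hCOD: every number `< 3^(n²)` is `codeB` of a board); define e.g. `Wk m P Q` by `Relation` iterated `m` times with `∃ m ≤ 2^k`, and cut a path with `m ≤ 2^(k+1)` steps in two parts with at most `2^k`
steps.  A path between two points of a finite type `X` with `|X| = M` elements can be shortened to fewer than `M` steps (shortest path: repeated points are cut out; or: the sets `R_m` of points reached with at most `m` steps increase and if `R_m = R_(m+1)` they are constant, so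
`R_M` is everything reachable: by induction either `R_m = R_(m+1)` or `|R_m| ≥ m + 1`).  The number of boards is `3^(n²) ≤ 2^(2 n²)` (`3 ≤ 4 = 2²`; `Nat.card (Pos (Fin n × Fin n)) = 3 ^ (n * n)`: or only the injection `codeB` into `Fin (3^(n²))`).
Hypotheses: hCOD hPLY (of GS). -/
def StRPT : Prop := ∀ (N n : ℕ), 3 ^ (n * n) ≤ N → ∀ (c : Bool) (P Q : Pos (Fin n × Fin n)),
  pthN N n (bn c) (2 * (n * n)) (codeB P) (codeB Q) ↔ Att (goG (grid n) false) c P Q

/-- SFN (about 80 lines)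
(Safe players as numbers.)
Proof.  `pw N 3 (n²) = 3^(n²)`; the numbers `v < 3^(n²)` are the codes of the boards (hCOD).  `gdN N n (bn c) (codeB Q) ↔ ∀ d, (0 < (goG (grid n) false).sc Q d ↔ c = true)`: the score is `area true - area false` (integers, `tc = false`), hARE; for `c = true`: `area false < area true`;
for `c = false`: its negation.  So `safN` is `Safe` by hRPT.  `losN N n (bn c) (codeB Q) ↔ Safe (goG (grid n) false) c Q ∨ ∃ Q', (goG (grid n) false).mv c Q Q' ∧ Safe (goG (grid n) false) c Q'`: hPLY for `mvN`.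
Hypotheses: hCOD hPLY hARE (of GS) hRPT. -/
def StSFN : Prop := ∀ (N n : ℕ), 3 ^ (n * n) ≤ N → ∀ (c : Bool) (Q : Pos (Fin n × Fin n)),
  (safN N n (bn c) (codeB Q) ↔ Safe (goG (grid n) false) c Q) ∧
  (losN N n (bn c) (codeB Q) ↔ Safe (goG (grid n) false) c Q ∨
    ∃ Q', (goG (grid n) false).mv c Q Q' ∧ Safe (goG (grid n) false) c Q')

/-- EVE (about 130 lines)
(The functions are E2.)  All tools: `Pool/Agent/Helper79/GS/Lib.lean`.
Proof.  `nV`: hEVW (of GT).  `cE`: `e_ite`, `e_eq`, `e_lett`, `e_sub`, `e_len`, `e_mul`, `e_add`.  `bE`: `e_sum` with `ctE` (`e_ite`) and `e_pw`.  `PhE`, `NbE`: `e_pw`.  `zE`: `Nat.ofDigits B [T, k, u, v, c] = T + B (k + B (u + B (v + B (c + B 0))))`.  `fE`: `e_dg`.  `mvN`, `areaN`: hEB2 (of GS).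
`b01 p`: `e_ite hp (e_con 1) (e_con 0)`.  Then `e_ite`.
Hypotheses: hEB2 (of GS) hEVW (of GT). -/
def StEVE : Prop :=
  E2 (α := Fin 5) (fun w _ => cE w) ∧ (∀ N : VF (Fin 5), E2 N → E2 (fun w v => bE (N w v) w)) ∧
  (∀ N T K U V C : VF (Fin 5), E2 N → E2 T → E2 K → E2 U → E2 V → E2 C →
    E2 (fun w v => zE (N w v) w (T w v) (K w v) (U w v) (V w v) (C w v))) ∧
  (∀ N Z : VF (Fin 5), E2 N → E2 Z → E2 (fun w v => iniE (N w v) w (Z w v)) ∧ E2 (fun w v => lenE (N w v) w (Z w v))) ∧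
  (∀ N Z J : VF (Fin 5), E2 N → E2 Z → E2 J → E2 (fun w v => delE (N w v) w (Z w v) (J w v))) ∧
  (∀ N Z J A Y : VF (Fin 5), E2 N → E2 Z → E2 J → E2 A → E2 Y →
    E2 (fun w v => stpE (N w v) w (Z w v) (J w v) (A w v) (Y w v)))

/-- FLE (about 120 lines; compare `Pool/Agent/Helper60/GS/M_BND.lean`, `Pool/Agent/Helper81/GS/M_FLD.lean`)
(Sizes and fields.)  `N = NN 8 w = (|w|+2)^((|w|+2)^8)`, `n = nV w ≤ |w|` (`tL7`: `bmin b p ≤ b`), `Y = |w| + 2 ≥ 2`.
Proof.  `5 (2 n² + 4) ≤ 10 Y² ≤ Y^8` (`n ≤ Y - 2`, `Y² ≥ 4`: `10 n² + 20 ≤ 10 Y²`; hmm, `10 Y² ≤ Y^8` since `Y^6 ≥ 64`; `10 n² + 20 ≤ 10 (Y-2)² + 20 ≤ 10 Y²` since `(Y - 2)² + 2 ≤ Y²` for `Y ≥ 2`).  So `(2^(2n²+4))^5 ≤ 2^(Y^8) ≤ Y^(Y^8) = N`, and all powers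
`2^(2 n² + 4)`, `3^(n²) ≤ 4^(n²) = 2^(2 n²)` are `≤ N`: `PhE N w = 2^(2 n² + 4)`, `NbE N w = 3^(n²)`, `pw N 3 p = 3^p` for `p ≤ n²`.  `2 * 3^(n²) + 2 ≤ 2^(2n²+4)`, `2 n² + 1 ≤ 2^(2 n² + 4)`.  Fields: for a list `l` of numbers `< B`, `2 ≤ B`:
`dg B (Nat.ofDigits B l) i = l.getD i 0` (see M_FLD).  `zE < Ph^5 ≤ N`.  `2 n² + 2 < Y^8`.
Hypotheses: none. -/
def StFLE : Prop := ∀ w : List (Fin 5),
  NbE (NN 8 w) w = 3 ^ (nV w * nV w) ∧ 3 ^ (nV w * nV w) ≤ NN 8 w ∧ (∀ p ≤ nV w * nV w, pw (NN 8 w) 3 p = 3 ^ p) ∧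
  2 * 3 ^ (nV w * nV w) + 4 < NN 8 w ∧ 2 * (nV w * nV w) + 2 < (w.length + 2) ^ 8 ∧
  ∀ T k u v c, OkFE w T k u v c →
    fE (NN 8 w) w (zE (NN 8 w) w T k u v c) 0 = T ∧ fE (NN 8 w) w (zE (NN 8 w) w T k u v c) 1 = k ∧
    fE (NN 8 w) w (zE (NN 8 w) w T k u v c) 2 = u ∧ fE (NN 8 w) w (zE (NN 8 w) w T k u v c) 3 = v ∧
    fE (NN 8 w) w (zE (NN 8 w) w T k u v c) 4 = c ∧ zE (NN 8 w) w T k u v c < NN 8 w

/-- AR1 (about 120 lines)
(Paths.)  `N = NN 8 w`, `Nb = NbE N w = 3^(n²) = pw N 3 (n²)`, `z = zE N w 1 k u v c`; fields by hFLE.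
Proof.  `k = 0`: `lenE = 0`, `iniE = b01 (u = v ∨ stN ..) = valE` (`b01 .. % 2 = b01 ..`), the first part is empty.  `k ≥ 1`: `lenE = 2 Nb`; for `j < 2 Nb`: `j / 2 < Nb = 3^(n²)`, so the calls have valid fields (`k - 1 ≤ 2 n²`) and rank `k - 1 < k`.  By induction on `i ≤ Nb`: the accumulator after `2 i`
steps is `b01 (∃ m < i, pthN (k-1) u m ∧ pthN (k-1) m v)` (step `2 i`: `a % 2 + 2 * b01 (b01 (pthN (k-1) u i) ≠ 0)`, step `2 i + 1`: `b01 (a % 2 = 1 ∨ (a / 2 = 1 ∧ b01 (pthN (k-1) i v) ≠ 0))`; `b01 p = 1 ↔ p`, `b01 p ≤ 1`).  At the end: `b01 (pthN k u v)` (definition of `pthN (k'+1)`, `k = k' + 1`).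
Hypotheses: hFLE. -/
def StAR1 : Prop := ∀ (w : List (Fin 5)) (k u v c : ℕ), OkFE w 1 k u v c → ArgE w (zE (NN 8 w) w 1 k u v c)

/-- AR2 (about 120 lines)
(Safe players.)  `N = NN 8 w`, `Nb = NbE N w = 3^(n²) = pw N 3 (n²)`; fields by hFLE.
Proof.  Kind 2: `lenE = Nb`, the call `j < Nb` is `zE 1 (2 n²) u j c`, valid, rank `2 n² < 2 n² + 1`, value `b01 (pthN (2 n²) u j)`; the accumulator after `i` steps is `b01 (∀ m < i, pthN (2 n²) u m → gdN m)` (start: `1`).  At the end `b01 (safN u)`.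
Kind 3: `lenE = Nb + 1`; the call `0` is `zE 2 0 u 0 c`, the call `j ≥ 1` is `zE 2 0 (j-1) 0 c`, valid, rank `2 n² + 1 < 2 n² + 2`; the accumulator after `i + 1` steps is `b01 (safN u ∨ ∃ m < i, mvN u m ∧ safN m)`.  At the end `b01 (losN u)`.
(`0 < 3^(n²)` for the fields `v = 0`.)
Hypotheses: hFLE. -/
def StAR2 : Prop := ∀ (w : List (Fin 5)) (T k u v c : ℕ), 2 ≤ T → OkFE w T k u v c → ArgE w (zE (NN 8 w) w T k u v c)

/-- PSE (about 120 lines; compare `Pool/Agent/Helper98/GS/M_PSP.lean`)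
(The languages are in PSPACE.)
Proof.  hREC (of GS) with `c = 8`: `ini w v = iniE (v 1) w (v 0)`, `len w v = lenE (v 1) w (v 0)`, `del w v = delE (v 3) w (v 0) (v 1)`, `stp w v = stpE (v 4) w (v 0) (v 1) (v 2) (v 3)`, `out w v = v 1 % 2` (context `(z, a, N)`), `z0 w v = if i then zE (v 0) w 2 0 (bE (v 0) w) 0 (cE w) else
zE (v 0) w 3 0 (bE (v 0) w) 0 (1 - cE w)`, `Ok = OkE`, `Val = valE`, `rk = rkE`.  E2: hEVE, `e_mod`, `e_sub`.  For a valid `z = zE ..` (`T = 1`: hAR1, `T ≥ 2`: hAR2): `z < N`, `rkE w z ≤ 2 n² + 2 < (|w|+2)^8` (hFLE), `iniE ≤ 1 < N`, `lenE ≤ 2 Nb + 1 < N`, `stpE ≤ 3 < N`, `a % 2 < N`; the calls and the value: `ArgE`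
(`scons` reduces by `rfl`).  The start: `bE N w < 3^(n²)` (digits `ctE ≤ 2`, `pw N 3 p = 3^p`; `Σ_(p<K) 2 * 3^p = 3^K - 1`), `cE w ≤ 1`; its value is `b01 (safN ..)` resp. `b01 (losN ..)`, the definition of `DE i`.
Hypotheses: hREC (of GS) hEVE hFLE hAR1 hAR2. -/
def StPSE : Prop := ∀ i, DE i ∈ PSPACE (Fin 5)

/-- WRE (about 110 lines; compare `Pool/Agent/Helper6/GT/M_VLV.lean`, `Pool/Agent/Helper7/GT/M_ENV.lean`)
(Reading the word of a placement.)  `W = inst n m kb kw c₀ P₀ H ++ ltr (some c) :: (bword P ++ bword Q)`.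
Proof.  `nV W = n`: the first `n` letters are `3`, the letter number `n` is `4` (`inst` begins with `replicate n 3 ++ 4 :: ..`; `tL7`, specification of `bmin`; `n < |W|`).  `|W| = |inst ..| + 1 + 2 n²`; the letter number `|W| - (2 n² + 1) = |inst ..|` is `ltr (some c)`, so `cE W = bn c`; the letter
number `|W| - n² + p` (`p < n²`) is the letter number `p` of `bword Q`: `ctE W p = dg 3 (codeB Q) p` (hCOD, three cases), so `bE N W = Σ_p dg 3 (codeB Q) p * 3^p = codeB Q` (for `3^(n²) ≤ N`: `pw N 3 p = 3^p` for `p ≤ n²`; `Finset.sum_range`).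
Hypotheses: hCOD (of GS). -/
def StWRE : Prop := ∀ (n m kb kw : ℕ) (c₀ : Bool) (P₀ : Pos (Fin n × Fin n)) (H : List (Bool × Pos (Fin n × Fin n))) (c : Bool)
  (P Q : Pos (Fin n × Fin n)), 1 ≤ n →
  nV (inst n m kb kw c₀ P₀ H ++ ltr (some c) :: (bword P ++ bword Q)) = n ∧
  cE (inst n m kb kw c₀ P₀ H ++ ltr (some c) :: (bword P ++ bword Q)) = bn c ∧
  ∀ N, 3 ^ (n * n) ≤ N → bE N (inst n m kb kw c₀ P₀ H ++ ltr (some c) :: (bword P ++ bword Q)) = codeB Q

/-- EXP (about 60 lines)
(The theorem with explicit declarations.)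
Proof.  `dcl DE (inst ..) i c P Q ↔ Dec (goG (grid n) false) i c P Q` by hWRE, hSFN (`N = NN 8 W ≥ 3^(n²)` by hFLE with `nV W = n`; `1 - bn c = bn (!c)`).  So the relations `dcl DE (inst ..)` and `Dec (goG (grid n) false)` are equal (`funext`, `propext`).  hMAI (of GT) with `tc = false`, `D = DE` (hPSE); `Sound` by hSND
(`Pos (Fin n × Fin n)` is finite).
Hypotheses: hMAI (of GT: `StMAI`) hSND hFLE hSFN hPSE hWRE. -/
def StEXP : Prop := ∀ sk : Bool, ∃ L ∈ PSPACE (Fin 5),
  ∀ (n m kb kw : ℕ) (c : Bool) (P : Pos (Fin n × Fin n)) (H : List (Bool × Pos (Fin n × Fin n))), 1 ≤ n →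
    Few (und (goG (grid n) false) (Dec (goG (grid n) false))) m P →
    (∀ c', ¬ Safe (goG (grid n) false) c' P) → (∀ x ∈ H, ∀ c', ¬ Safe (goG (grid n) false) c' x.2) →
    (inst n m kb kw c P H ∈ L ↔
      BWg (goG (grid n) false) sk (insert (c, P) {x | x ∈ H}) false c P ((kb : ℤ) - kw))

end Pool.Agent.Helper79.GU
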