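import Pool.Agent.Helper79.GT.All
import Pool.Agent.Helper79.GU.St1
import Pool.Agent.Helper32.GU.M_SWN
import Pool.Agent.Helper36.GU.M_SND
import Pool.Agent.Helper21.GU.M_RPT
import Pool.Agent.Helper40.GU.M_SFN
import Pool.Agent.Helper70.GU.M_EVE
import Pool.Agent.Helper57.GU.M_FLE
import Pool.Agent.Helper14.GU.M_AR1
import Pool.Agent.Helper6.GU.M_AR2
import Pool.Agent.Helper47.GU.M_PSE
import Pool.Agent.Helper81.GU.M_WRE
import Pool.Agent.Helper38.GU.M_EXP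

/-!
# Project GU (MP_c2d095_lc): assembly
-/

set_option autoImplicit false

namespace Pool.Agent.Helper79.GU

theorem gSWN : StSWN := Pool.Agent.Helper32.GU.hSWN
theorem gSND : StSND := Pool.Agent.Helper36.GU.hSND gSWN
theorem gRPT : StRPT := Pool.Agent.Helper21.GU.hRPT Pool.Agent.Helper79.GS.gCOD Pool.Agent.Helper79.GS.gPLY
theorem gSFN : StSFN :=
  Pool.Agent.Helper40.GU.hSFN Pool.Agent.Helper79.GS.gCOD Pool.Agent.Helper79.GS.gPLY Pool.Agent.Helper79.GS.gARE gRPT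
theorem gEVE : StEVE := Pool.Agent.Helper70.GU.hEVE Pool.Agent.Helper79.GS.gEB2 Pool.Agent.Helper79.GT.gEVW
theorem gFLE : StFLE := Pool.Agent.Helper57.GU.hFLE
theorem gAR1 : StAR1 := Pool.Agent.Helper14.GU.hAR1 gFLE
theorem gAR2 : StAR2 := Pool.Agent.Helper6.GU.hAR2 gFLE
theorem gPSE : StPSE := Pool.Agent.Helper47.GU.hPSE Pool.Agent.Helper79.GS.gREC gEVE gFLE gAR1 gAR2
theorem gWRE : StWRE := Pool.Agent.Helper81.GU.hWRE Pool.Agent.Helper79.GS.gCOD
theorem gEXP : StEXP := Pool.Agent.Helper38.GU.hEXP Pool.Agent.Helper79.GT.gMAI gSND gFLE gSFN gPSE gWRE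

end Pool.Agent.Helper79.GU
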