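import Pool.Agent.Helper79.GT.Defs5

/-!
# Project GU (MP_c2d095_lc): explicit decisive placements, extension of the project GT

`Safe A c b`: on all boards reached from `b` by placements of the opponent of `c` and ko captures of `c` the score is in
favour of `c`; so `c` wins by passing.  A placement is decisive if its player is safe after it, or if the opponent is safe
after it or can become safe by one placement.  No hypothesis `Sound` is needed for these declarations.
-/

set_option autoImplicit false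

namespace Pool.Agent.Helper79.GU

open Pool.Agent.Helper19.SK Pool.Agent.Helper73.DC Pool.Agent.Helper79.GS Pool.Agent.Helper79.GT Finset
open scoped Classical

/-- The second board is reached from the first one by placements of the opponent of `c` and by placements of `c` which can be
taken back at once (ko captures). -/
def Att {P : Type} (A : Gm P) (c : Bool) : P → P → Prop :=
  Relation.ReflTransGen (fun b b' => A.mv (!c) b b' ∨ (A.mv c b b' ∧ A.mv (!c) b' b))

/-- The player `c` is safe: the score of all boards which are reached in this way is in favour of `c` (Black wins if and only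
if the score is positive). -/
def Safe {P : Type} (A : Gm P) (c : Bool) (b : P) : Prop := ∀ b', Att A c b b' → ∀ d, (0 < A.sc b' d ↔ c = true)

/-- Decisive placements of the player `c`, to the board `b'`: `Dec A true c b b'`: the player `c` is safe after it;
`Dec A false c b b'`: the opponent is safe after it or by one placement more. -/
def Dec {P : Type} (A : Gm P) (i c : Bool) (_ b' : P) : Prop :=
  (i = true ∧ Safe A c b') ∨ (i = false ∧ (Safe A (!c) b' ∨ ∃ b'', A.mv (!c) b' b'' ∧ Safe A (!c) b''))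

/-! ## Numbers -/

/-- One step of `Att` for the player `c` (`1` Black, `0` White). -/
def stN (N n c u v : ℕ) : Prop := mvN N n (1 - c) u v ∨ (mvN N n c u v ∧ mvN N n (1 - c) v u)

/-- The score is in favour of the player `c`. -/
def gdN (N n c v : ℕ) : Prop := if c = 1 then areaN N n 0 v < areaN N n 1 v else ¬ areaN N n 0 v < areaN N n 1 v

/-- Paths with at most `2 ^ k` steps. -/
def pthN (N n c : ℕ) : ℕ → ℕ → ℕ → Prop
  | 0, u, v => u = v ∨ stN N n c u v
  | k + 1, u, v => ∃ w < pw N 3 (n * n), pthN N n c k u w ∧ pthN N n c k w v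

/-- The player `c` is safe. -/
def safN (N n c u : ℕ) : Prop := ∀ v < pw N 3 (n * n), pthN N n c (2 * (n * n)) u v → gdN N n c v

/-- The player `c` is safe or can become safe by one placement. -/
def losN (N n c u : ℕ) : Prop := safN N n c u ∨ ∃ v < pw N 3 (n * n), mvN N n c u v ∧ safN N n c v

/-! ## Words of placements -/

/-- The player (the letter before the two boards at the end). -/
noncomputable def cE (w : List (Fin 5)) : ℕ :=
  if lett w (w.length - (2 * (nV w * nV w) + 1)) = cd (1 : Fin 5) + 1 then 1 else 0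

/-- Content of the cell `p` of the last board. -/
noncomputable def ctE (w : List (Fin 5)) (p : ℕ) : ℕ :=
  if lett w (w.length - nV w * nV w + p) = cd (1 : Fin 5) + 1 then 1
  else if lett w (w.length - nV w * nV w + p) = cd (2 : Fin 5) + 1 then 2 else 0

/-- The last board. -/
noncomputable def bE (N : ℕ) (w : List (Fin 5)) : ℕ := ∑ p ∈ range (nV w * nV w), ctE w p * pw N 3 p

/-- The languages of the decisive placements. -/
def DE (i : Bool) : Set (List (Fin 5)) :=
  {w | if i = true then safN (NN 8 w) (nV w) (cE w) (bE (NN 8 w) w)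
    else losN (NN 8 w) (nV w) (1 - cE w) (bE (NN 8 w) w)}

/-! ## The recursive procedure

The argument `z` has the digits (fields) `T, k, u, v, c` in the base `PhE`.  Kinds `T`: 1: `pthN k u v`; 2: `safN u`;
3: `losN u`. -/

/-- Base of the fields. -/
noncomputable def PhE (N : ℕ) (w : List (Fin 5)) : ℕ := pw N 2 (2 * (nV w * nV w) + 4)

/-- Number of boards. -/
noncomputable def NbE (N : ℕ) (w : List (Fin 5)) : ℕ := pw N 3 (nV w * nV w)

/-- The argument with given fields. -/
noncomputable def zE (N : ℕ) (w : List (Fin 5)) (T k u v c : ℕ) : ℕ := Nat.ofDigits (PhE N w) [T, k, u, v, c]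

/-- The field number `i`. -/
noncomputable def fE (N : ℕ) (w : List (Fin 5)) (z i : ℕ) : ℕ := dg (PhE N w) z i

/-- Start value of the loop. -/
noncomputable def iniE (N : ℕ) (w : List (Fin 5)) (z : ℕ) : ℕ :=
  if fE N w z 0 = 1 then
    (if fE N w z 1 = 0 then b01 (fE N w z 2 = fE N w z 3 ∨ stN N (nV w) (fE N w z 4) (fE N w z 2) (fE N w z 3)) else 0)
  else if fE N w z 0 = 2 then 1 else 0

/-- Length of the loop. -/
noncomputable def lenE (N : ℕ) (w : List (Fin 5)) (z : ℕ) : ℕ :=
  if fE N w z 0 = 1 then (if fE N w z 1 = 0 then 0 else 2 * NbE N w)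
  else if fE N w z 0 = 2 then NbE N w
  else if fE N w z 0 = 3 then NbE N w + 1 else 0

/-- The calls. -/
noncomputable def delE (N : ℕ) (w : List (Fin 5)) (z j : ℕ) : ℕ :=
  if fE N w z 0 = 1 then
    (if j % 2 = 0 then zE N w 1 (fE N w z 1 - 1) (fE N w z 2) (j / 2) (fE N w z 4)
      else zE N w 1 (fE N w z 1 - 1) (j / 2) (fE N w z 3) (fE N w z 4))
  else if fE N w z 0 = 2 then zE N w 1 (2 * (nV w * nV w)) (fE N w z 2) j (fE N w z 4)
  else if fE N w z 0 = 3 then (if j = 0 then zE N w 2 0 (fE N w z 2) 0 (fE N w z 4) else zE N w 2 0 (j - 1) 0 (fE N w z 4))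
  else 0

/-- The steps: accumulator `a`, returned value `y`. -/
noncomputable def stpE (N : ℕ) (w : List (Fin 5)) (z j a y : ℕ) : ℕ :=
  if fE N w z 0 = 1 then
    (if j % 2 = 0 then a % 2 + 2 * b01 (y ≠ 0) else b01 (a % 2 = 1 ∨ (a / 2 = 1 ∧ y ≠ 0)))
  else if fE N w z 0 = 2 then b01 (a = 1 ∧ (y = 0 ∨ gdN N (nV w) (fE N w z 4) j))
  else if fE N w z 0 = 3 then
    (if j = 0 then b01 (y ≠ 0) else b01 (a = 1 ∨ (mvN N (nV w) (fE N w z 4) (fE N w z 2) (j - 1) ∧ y ≠ 0)))
  else 0

/-- The value of the procedure. -/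
noncomputable def valE (w : List (Fin 5)) (z : ℕ) : ℕ :=
  if fE (NN 8 w) w z 0 = 1 then
    b01 (pthN (NN 8 w) (nV w) (fE (NN 8 w) w z 4) (fE (NN 8 w) w z 1) (fE (NN 8 w) w z 2) (fE (NN 8 w) w z 3))
  else if fE (NN 8 w) w z 0 = 2 then b01 (safN (NN 8 w) (nV w) (fE (NN 8 w) w z 4) (fE (NN 8 w) w z 2))
  else if fE (NN 8 w) w z 0 = 3 then b01 (losN (NN 8 w) (nV w) (fE (NN 8 w) w z 4) (fE (NN 8 w) w z 2))
  else 0

/-- Depth of the recursion. -/
noncomputable def rkE (w : List (Fin 5)) (z : ℕ) : ℕ :=
  if fE (NN 8 w) w z 0 = 1 then fE (NN 8 w) w z 1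
  else if fE (NN 8 w) w z 0 = 2 then 2 * (nV w * nV w) + 1
  else if fE (NN 8 w) w z 0 = 3 then 2 * (nV w * nV w) + 2 else 0

/-- Valid fields. -/
def OkFE (w : List (Fin 5)) (T k u v c : ℕ) : Prop :=
  1 ≤ T ∧ T ≤ 3 ∧ k ≤ 2 * (nV w * nV w) ∧ u < 3 ^ (nV w * nV w) ∧ v < 3 ^ (nV w * nV w) ∧ c ≤ 1

/-- Valid arguments. -/
def OkE (w : List (Fin 5)) (z : ℕ) : Prop := ∃ T k u v c, OkFE w T k u v c ∧ z = zE (NN 8 w) w T k u v c

/-- The condition of the procedure for one argument (hypothesis of `StREC`). -/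
def ArgE (w : List (Fin 5)) (z : ℕ) : Prop :=
  (∀ j < lenE (NN 8 w) w z, OkE w (delE (NN 8 w) w z j) ∧ rkE w (delE (NN 8 w) w z j) < rkE w z) ∧
  valE w z = (Nat.rec (iniE (NN 8 w) w z) (fun j a => stpE (NN 8 w) w z j a (valE w (delE (NN 8 w) w z j)))
    (lenE (NN 8 w) w z) : ℕ) % 2

end Pool.Agent.Helper79.GU
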