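import Pool.Agent.Helper91.GU.StB

/-!
# Project GU: module B45 (harmless supports)
-/

set_option autoImplicit false

namespace Pool.Agent.Helper79.GU

universe u

open Pool.Agent.Helper91.GU

theorem hB45 (hA0 : StA0.{u}) (hB4 : StB4.{u}) (hB5 : StB5.{u}) : StB45.{u} := by
  intro A _ f i hcop s a ω c h1 h2 h3 h4 h5
  obtain ⟨b, h, g, hg, hc⟩ := h5
  obtain ⟨Afi, _, _, _, _, hsq⟩ := hA0 A f i hcop
  refine hB4 A (Localization.Away f) (Localization.Away i) Afi f i hsq (s + 1) a ω c h1 h2 h4 ?_
  intro t ht
  have := hsq.towf
  have hmp : mp (algebraMap A Afi) c =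
      mp (algebraMap (Localization.Away f) Afi) (mp (algebraMap A (Localization.Away f)) c) := by
    funext j
    exact IsScalarTower.algebraMap_apply A (Localization.Away f) Afi (c j)
  have hω : algebraMap A Afi ω =
      algebraMap (Localization.Away f) Afi (algebraMap A (Localization.Away f) ω) :=
    IsScalarTower.algebraMap_apply A (Localization.Away f) Afi ω
  -- unimodularity of the row over `Afi`
  have hUm : Um (Fin.cons (algebraMap (Localization.Away f) Afi b)
      (mp (algebraMap (Localization.Away f) Afi) h) : Fin (s + 1) → Afi) := by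
    have hu : IsUnit (algebraMap (Localization.Away f) Afi
        (algebraMap A (Localization.Away f) i)) := by
      have := hsq.locfi'
      exact IsLocalization.Away.algebraMap_isUnit _
    obtain ⟨w, hw⟩ := hu.exists_left_inv
    unfold idl at h3
    rw [Ideal.mem_span_range_iff_exists_fun] at h3
    obtain ⟨d, hd⟩ := h3
    have hd2 : (Fin.cons (b ^ (s + 1).factorial) h : Fin (s + 1) → Localization.Away f) ⬝ᵥ
        (Matrix.mulVec g d) = algebraMap A (Localization.Away f) i := by
      rw [Matrix.dotProduct_mulVec, ← hc, ← hd]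
      unfold dotProduct
      exact Finset.sum_congr rfl fun j _ => mul_comm _ _
    set e : Fin (s + 1) → Localization.Away f := Matrix.mulVec g d with he
    have hm : (s + 1).factorial = ((s + 1).factorial - 1) + 1 :=
      (Nat.sub_add_cancel (Nat.factorial_pos _)).symm
    unfold dotProduct at hd2
    rw [Fin.sum_univ_succ] at hd2
    simp only [Fin.cons_zero, Fin.cons_succ] at hd2
    refine ⟨Fin.cons (w * algebraMap (Localization.Away f) Afi (b ^ ((s + 1).factorial - 1) * e 0))
      (fun j => w * algebraMap (Localization.Away f) Afi (e j.succ)), ?_⟩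
    unfold dotProduct
    rw [Fin.sum_univ_succ]
    simp only [Fin.cons_zero, Fin.cons_succ, mp]
    have h6 := congrArg (fun x => w * algebraMap (Localization.Away f) Afi x) hd2
    rw [hw, map_add, map_mul, map_sum] at h6
    rw [← h6, mul_add, Finset.mul_sum]
    congr 1
    · rw [map_mul, hm, Nat.add_sub_cancel, pow_succ, map_mul]
      ring
    · apply Finset.sum_congr rfl
      intro j _
      rw [map_mul]
      ring
  have ht' : mp (algebraMap (Localization.Away f) Afi)
      (mp (algebraMap A (Localization.Away f)) c) ⬝ᵥ t =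
      algebraMap (Localization.Away f) Afi (algebraMap A (Localization.Away f) ω) - 1 := by
    rw [← hmp, ← hω]; exact ht
  obtain ⟨δ, k, hδ, hk, hθ⟩ := hB5 (Localization.Away f) Afi (algebraMap (Localization.Away f) Afi) s
    (algebraMap A (Localization.Away f) ω) b h g (mp (algebraMap A (Localization.Away f)) c)
    h2 hg hUm hc t ht'
  refine ⟨δ, k, hδ, hk, ?_⟩
  rw [hmp]
  exact hθ

end Pool.Agent.Helper79.GU
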