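import Pool.Agent.Helper96.GU.St

set_option autoImplicit false

namespace Pool.Agent.Helper79.GU

open Pool.Agent.Helper96.UT hiding StTOP TopV TopE tht Bd VC EC
open Pool.Agent.Helper96.GU

/-- extension of homomorphisms to the rationals -/
private theorem ext_hom {F : Type} [Group F] (L : Subgroup F)
    (hL : ∀ h : L, (h : F) ∈ commutator F → h ∈ commutator L) (Ψ : L →* Multiplicative ℚ) :
    ∃ Φ : F →* Multiplicative ℚ, ∀ h : L, Φ h = Ψ h := by
  let j : Additive (Abelianization L) →+ Additive (Abelianization F) :=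
    MonoidHom.toAdditive (Abelianization.map L.subtype)
  let Ψ' : Additive (Abelianization L) →+ ℚ := MonoidHom.toAdditiveLeft (Abelianization.lift Ψ)
  have hj : Function.Injective j := by
    rw [injective_iff_map_eq_zero]
    intro a ha
    obtain ⟨h, rfl⟩ : ∃ h : L, Additive.ofMul (Abelianization.of h) = a := by
      obtain ⟨h, hh⟩ := QuotientGroup.mk'_surjective (commutator L) (Additive.toMul a)
      exact ⟨h, by
        rw [← ofMul_toMul a]
        exact congrArg Additive.ofMul hh⟩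
    have h1 : (Abelianization.map L.subtype) (Abelianization.of h) = 1 := ha
    rw [Abelianization.map_of] at h1
    have h2 : (h : F) ∈ (Abelianization.of (G := F)).ker := h1
    rw [Abelianization.ker_of] at h2
    have h3 := hL h h2
    rw [← Abelianization.ker_of] at h3
    have h4 : Abelianization.of h = 1 := h3
    rw [h4]
    rfl
  obtain ⟨Φ', hΦ'⟩ := Module.Baer.extension_property_addMonoidHom (Module.Baer.of_divisible ℚ) j hj Ψ'
  refine ⟨(MonoidHom.toAdditiveLeft.symm Φ').comp Abelianization.of, fun h => ?_⟩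
  have h1 := DFunLike.congr_fun hΦ' (Additive.ofMul (Abelianization.of h))
  have h2 : Φ' (Additive.ofMul (Abelianization.of (h : F))) = Multiplicative.toAdd (Ψ h) := h1
  exact congrArg Multiplicative.ofAdd h2

theorem tLVD : StLVD := by
  intro α Z L hL Ω _ v hΩ Θ _ o ho ψ κ
  let ψ' : Θ × α → ℚ := fun e => ψ ((v, e.1), e.2)
  have hfix : ∀ h ∈ L, act o h = o := fun h hh => (ho h).2 hh
  let Ψ : L →* Multiplicative ℚ :=
    { toFun := fun h => Multiplicative.ofAdd (Sa ψ' o (h : FreeGroup α))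
      map_one' := rfl
      map_mul' := by
        intro g h
        rw [← ofAdd_add]
        congr 1
        show Sa ψ' o ((g : FreeGroup α) * (h : FreeGroup α)) = _
        rw [Sa_mul, hfix _ g.2] }
  obtain ⟨Φ, hΦ⟩ := ext_hom L hL Ψ
  let φ : Ω × α → ℚ := fun e => Multiplicative.toAdd (Φ (FreeGroup.of e.2))
  have hφ : ∀ (x : Ω) (w : List (α × Bool)), Sm φ x w = Multiplicative.toAdd (Φ (FreeGroup.mk w)) := by
    intro x w
    induction w generalizing x with
    | nil =>
      rw [mk_nil, map_one]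
      rfl
    | cons y w ih =>
      rw [Sm, ih, mk_cons, map_mul, toAdd_mul]
      congr 1
      rcases y with ⟨a, b⟩
      cases b
      · have h1 : lt (a, false) = (FreeGroup.of a)⁻¹ := rfl
        rw [h1, map_inv, toAdd_inv]
        simp only [Bool.false_eq_true, if_false]
        rfl
      · simp only [if_true]
        rfl
  let χ : Θ × α → ℚ := fun e => ψ' e - φ ((fun _ : Θ => v) e.1, e.2)
  have hχL : ∀ h ∈ L, Sa χ o h = 0 := by
    intro h hh
    have h1 : Sa χ o h = Sa ψ' o h - Sa (fun e : Θ × α => φ ((fun _ : Θ => v) e.1, e.2)) o h := Sa_sub _ _ _ _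
    rw [h1, Sa_comp (fun _ : Θ => v) (fun _ _ => (hΩ _).symm) φ o h]
    obtain ⟨w, rfl⟩ := rep_EXZ h
    rw [Sa_mk φ v w, hφ v w]
    have h2 := hΦ ⟨FreeGroup.mk w, hh⟩
    have h3 : Φ (FreeGroup.mk w) = Multiplicative.ofAdd (Sa ψ' o (FreeGroup.mk w)) := h2
    rw [h3, toAdd_ofAdd, sub_self]
  have hclosed : ∀ (x : Θ) (q : List (α × Bool)), InE (CE Z o) x q → act x (FreeGroup.mk q) = x →
      Sm χ x q = 0 := by
    intro x q hq hx
    cases q with
    | nil => rfl
    | cons y q =>
      obtain ⟨i, hi⟩ : ∃ i : ℤ, x = act o (pre Z.c i) := by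
        obtain ⟨i, hi⟩ := hq.1
        rcases ed_eq hi with ⟨h1, -⟩ | ⟨h1, h2⟩
        · exact ⟨i, h1.symm⟩
        · refine ⟨i + 1, ?_⟩
          have h3 : y = bar (Z.c i) := by rw [h2, bar_bar]
          rw [pre_succ, act_mul, h1, h3, lt_bar, ← act_mul, inv_mul_cancel, act_one]
      have hmem : pre Z.c i * FreeGroup.mk (y :: q) * (pre Z.c i)⁻¹ ∈ L := by
        rw [← ho, act_mul, act_mul, ← hi, hx]
        exact act_inv_eq hi.symm
      have h4 := hχL _ hmem
      rw [Sa_mul, Sa_mul, act_mul, ← hi, hx] at h4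
      have h5 := Sa_inv χ o (pre Z.c i)
      rw [← hi] at h5
      rw [h5] at h4
      have h6 : Sa χ x (FreeGroup.mk (y :: q)) = Sm χ x (y :: q) := rfl
      rw [h6] at h4
      linarith
  obtain ⟨g₀, hg₀⟩ := potential (CE Z o) χ hclosed
  refine ⟨φ, fun x => g₀ x.2, ?_, fun p hp => absurd hp (Set.notMem_empty p)⟩
  rintro ⟨⟨p, γ⟩, a⟩ _ he
  have h1 := hg₀ γ a he
  have hp : p = v := hΩ p
  subst hp
  have h2 : χ (γ, a) = ψ ((p, γ), a) - φ (p, a) := rfl
  rw [h2] at h1
  show ψ ((p, γ), a) = φ (p, a) + (g₀ (act γ (lt (a, true))) - g₀ γ)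
  linarith

end Pool.Agent.Helper79.GU
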